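import Pool.Agent.Lib.MP_1a91b9_ntE.Q2E
import Pool.Agent.Lib.MP_1a91b9_ntS.PerS
import Pool.Agent.Lib.MP_1a91b9_ntS.R.Defs
import Pool.Agent.Lib.MP_1a91b9_ntS.C.Tor
import Pool.Agent.Lib.MP_1a91b9_ntS.C.Good

/-!
# MP_1a91b9_nt: the conjecture of Birch and Swinnerton-Dyer modulo 2 for every quadratic twist
-/

set_option autoImplicit false

namespace Pool.Agent.Lib.MP_1a91b9_ntS

open NumberField IsDedekindDomain Finset Pool.Agent.Lib.MP_1a91b9_ntT Pool.Agent.Lib.MP_1a91b9_ntH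
  Pool.Agent.Lib.MP_1a91b9_ntH2 Pool.Agent.Lib.MP_1a91b9_ntE
open Pool.Agent.Lib.MP_1a91b9_ntH.C (cv)
open Pool.Agent.Lib.MP_1a91b9_ntT.S9 (tam period)
open Pool.Agent.Lib.MP_1a91b9_ntT3.S9 (ShaP PPartQ)

noncomputable section

private theorem form_a : Quarter_a ^ 3 = -1 / 4 := by
  have h := Quarter_a_eq
  linear_combination h / 4

private theorem form_zt3 : MP_1a91b9_ntT.zt ^ 3 = 1 := MP_1a91b9_ntT.zt_spec.pow_eq_one

private theorem form_ne : MP_1a91b9_ntT.zt ≠ 1 := MP_1a91b9_ntT.zt_spec.ne_one (by norm_num)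

/-- The absolute value of the constant of the class `c`. -/
theorem norm_kac (c : F4) (hc : c ≠ 0) : ∃ ρ : ℝ, 0 < ρ ∧
    (∀ A : ValuationSubring ℂ, Two A → A.valuation (ρ : ℂ) = 1) ∧ ‖kac c‖ ^ 2 = ρ * ‖ep‖ ^ 2 := by
  have ha := form_a
  have ha0 := Quarter_a_ne
  have h3 := form_zt3
  have hb : (MP_1a91b9_ntT.zt * Quarter_a) ^ 3 = -1 / 4 := by rw [mul_pow, h3, one_mul, ha]
  have hd : (MP_1a91b9_ntT.zt ^ 2 * Quarter_a) ^ 3 = -1 / 4 := by
    rw [mul_pow, ← pow_mul, mul_comm 2 3, pow_mul, h3, one_pow, one_mul, ha]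
  have hsq := kac_sq c
  by_cases h1 : c = 1
  · refine ⟨3, by norm_num, fun A hA => val_three hA, ?_⟩
    refine norm_kap_one ep_cube ha ?_
    rw [hsq, kacs, if_pos h1]
  · refine ⟨√3, by positivity, fun A hA => val_sqrt3 hA, ?_⟩
    by_cases h2 : c = ⟨0, 1⟩
    · refine norm_kap_two ep_cube hb ha hb (fun h => ?_) ?_
      · exact form_ne (mul_right_cancel₀ ha0 (by rw [h, one_mul]))
      · have hz : MP_1a91b9_ntT.zt * Quarter_a ≠ 0 :=
          mul_ne_zero (MP_1a91b9_ntT.zt_spec.ne_zero (by norm_num)) ha0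
        rw [hsq, kacs, if_neg h1, if_pos h2, mul_div_assoc, div_self hz, mul_one]
        ring
    · refine norm_kap_two ep_cube hd ha hd (fun h => ?_) ?_
      · have h4 : MP_1a91b9_ntT.zt ^ 2 = 1 := mul_right_cancel₀ ha0 (by rw [h, one_mul])
        apply form_ne
        linear_combination h3 - MP_1a91b9_ntT.zt * h4
      · have hz : MP_1a91b9_ntT.zt ^ 2 * Quarter_a ≠ 0 :=
          mul_ne_zero (pow_ne_zero 2 (MP_1a91b9_ntT.zt_spec.ne_zero (by norm_num))) ha0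
        rw [hsq, kacs, if_neg h1, if_neg h2, mul_div_assoc, div_self hz, mul_one]
        ring

private theorem form_if {c : F4} {S : Finset Pq} (x y : ℂ) [Decidable (s3 ∣ dlc c S)] :
    (if s3 ∣ dlc c S then x else y) = if (qd.A S + c).b = 0 then y else x := by
  by_cases h : (qd.A S + c).b = 0
  · rw [if_pos h, if_neg fun h1 => (s3_dvd_dlc.1 h1) h]
  · rw [if_neg h, if_pos (s3_dvd_dlc.2 h)]

private theorem form_ifN {c : F4} {S : Finset Pq} (x y : ℕ) [Decidable (s3 ∣ dlc c S)] :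
    (if s3 ∣ dlc c S then x else y) = if (qd.A S + c).b = 0 then y else x := by
  by_cases h : (qd.A S + c).b = 0
  · rw [if_pos h, if_neg fun h1 => (s3_dvd_dlc.1 h1) h]
  · rw [if_neg h, if_pos (s3_dvd_dlc.2 h)]

private theorem form_ife {c : F4} {S : Finset Pq} (x y : ℂ) [Decidable (s3 ∣ 2 * dlc c S)] :
    (if s3 ∣ 2 * dlc c S then x else y) = if (qd.A S + c).b = 0 then y else x := by
  by_cases h : (qd.A S + c).b = 0
  · rw [if_pos h, if_neg fun h1 => (s3_dvd_dlE.1 h1) h]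
  · rw [if_neg h, if_pos (s3_dvd_dlE.2 h)]

private theorem form_ifeN {c : F4} {S : Finset Pq} (x y : ℕ) [Decidable (s3 ∣ 2 * dlc c S)] :
    (if s3 ∣ 2 * dlc c S then x else y) = if (qd.A S + c).b = 0 then y else x := by
  by_cases h : (qd.A S + c).b = 0
  · rw [if_pos h, if_neg fun h1 => (s3_dvd_dlE.1 h1) h]
  · rw [if_neg h, if_pos (s3_dvd_dlE.2 h)]

/-- residue class zero -/
theorem Rs_lt {A : ValuationSubring ℂ} (hA : Two A) {z : ℂ} {y : F4} (h : Rs A z y)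
    (hy : ¬ y ≠ 0) : A.valuation z < 1 := by
  rw [not_not] at hy
  subst hy
  exact (Rs.zero_iff hA).1 h

/-- The formula for the odd classes. -/
theorem form_c (c : F4) (S : Finset Pq) : ∃ (g : ℂ → ℂ) (q : ℚ), Differentiable ℂ g ∧
    (∀ s : ℂ, 3 / 2 < s.re → g s = (cv ((dlc c S : 𝓞 K) : K)).LSeries s) ∧
    g 1 * (√|(discr K : ℝ)| : ℝ) / (period (cv ((dlc c S : 𝓞 K) : K)) : ℝ) =
      ((q : ℝ) * (((∏ᶠ v : HeightOneSpectrum (𝓞 K), tam (cv ((dlc c S : 𝓞 K) : K)) v : ℕ) : ℝ) /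
        16) : ℝ) ∧
    ¬ 2 ∣ q.den ∧ (¬ (2 : ℤ) ∣ q.num ↔ ((tw c qd).M S).det ≠ 0) := by
  classical
  obtain ⟨t, ht, hT⟩ := MP_1a91b9_ntH2.C.finprod_tam_dlc c S
  by_cases hc : c = 0
  · subst hc
    obtain ⟨g, hgd, hgs, hg⟩ := lser_main S
    have hr := crat S
    have hg' : g 1 * (if s3 ∣ dlc 0 S then 4 / 3 else 1) = LS S 1 * (starRingEnd ℂ) (LS S 1) := by
      rw [form_if, add_zero]
      exact hg
    have hr' : ∃ q : ℚ, ‖LS S 1‖ ^ 2 * ‖MP_1a91b9_ntH.em (dlc 0 S)‖ =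
        (q : ℝ) * (‖Om‖ * ‖ep‖) ^ 2 := by
      rw [dlc_zero]
      exact hr
    obtain ⟨q, h1, h2, h3⟩ := formula_odd (δ := dlc 0 S) (r := S.card) (b := (qd.M S).det ≠ 0)
      (dlc_squarefree 0 S) (dlc_two 0 S) (κ := ep) ep_cube (ρ := 1) one_pos
      (fun A hA => by rw [Complex.ofReal_one, map_one]) (one_mul _).symm hg'
      (fun h A hA => (nu_res hA S).unit hA h) (fun h A hA => Rs_lt hA (nu_res hA S) h) ht
      (T := ∏ᶠ v : HeightOneSpectrum (𝓞 K), tam (cv ((dlc 0 S : 𝓞 K) : K)) v)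
      (by rw [form_ifN]; exact hT) hr'
    refine ⟨g, q, hgd, ?_, h3, h1, ?_⟩
    · rw [dlc_zero]
      exact hgs
    · rw [tw_zero]
      exact h2
  · obtain ⟨g, hgd, hgs, hg⟩ := lser_mainc c S
    obtain ⟨ρ, hρ, hρA, hκ⟩ := norm_kac c hc
    have hg' : g 1 * (if s3 ∣ dlc c S then 4 / 3 else 1) =
        LSc c S 1 * (starRingEnd ℂ) (LSc c S 1) := by
      rw [form_if]
      exact hg
    obtain ⟨q, h1, h2, h3⟩ := formula_odd (δ := dlc c S) (r := S.card)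
      (b := ((tw c qd).M S).det ≠ 0) (dlc_squarefree c S) (dlc_two c S) ep_cube hρ hρA hκ hg'
      (fun h A hA => (nuc_res hA hc S).unit hA h) (fun h A hA => Rs_lt hA (nuc_res hA hc S) h) ht
      (T := ∏ᶠ v : HeightOneSpectrum (𝓞 K), tam (cv ((dlc c S : 𝓞 K) : K)) v)
      (by rw [form_ifN]; exact hT) (crat_c c S)
    exact ⟨g, q, hgd, hgs, h3, h1, h2⟩

private theorem form_one {A : ValuationSubring ℂ} (hA : Two A) {d : 𝓞 K} (hd : (2 : 𝓞 K) ∣ d - 1) :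
    A.valuation (MP_1a91b9_ntH.em d) = 1 := by
  have h1 : A.valuation (MP_1a91b9_ntH.em d - 1) < 1 := by
    have e : MP_1a91b9_ntH.em d - 1 = MP_1a91b9_ntH.em (d - 1) := by rw [RatA_sub, RatA_one]
    rw [e]
    exact em_lt hA hd
  have h2 : MP_1a91b9_ntH.em d = 1 + (MP_1a91b9_ntH.em d - 1) := by ring
  rw [h2, Valuation.map_add_eq_of_lt_left _ (by rwa [map_one]), map_one]

theorem val_LSe_eq (c : F4) (S : Finset Pq) {A : ValuationSubring ℂ} (hA : Two A) :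
    A.valuation (LSe c S 1 * 6 / (Om * (CE c * vpE / 2) * 2 ^ S.card)) =
      A.valuation (nuE c S) := by
  have h2 := form_one hA (DD_two S)
  have hD : MP_1a91b9_ntH.em (DD S) ≠ 0 := RatA_ne (DD_ne S)
  have hO := Om_ne_zero
  have hC := CE_ne c
  have hv : vpE ≠ 0 := vpE_ne
  have h24 : MP_1a91b9_ntH.em (24 * DD S) = 24 * MP_1a91b9_ntH.em (DD S) := by
    rw [RatA_mul]
    congr 1
    have := RatA_ofNat 24
    push_cast at this
    exact this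
  have e : LSe c S 1 * 6 / (Om * (CE c * vpE / 2) * 2 ^ S.card) =
      nuE c S / MP_1a91b9_ntH.em (DD S) := by
    rw [nuE, NNE, h24]
    have h3 : (2 : ℂ) ^ S.card ≠ 0 := pow_ne_zero _ two_ne_zero
    field_simp
    ring
  rw [e, map_div₀, h2, div_one]

/-- The formula for the even classes. -/
theorem form_e (c : F4) (S : Finset Pq) : ∃ (g : ℂ → ℂ) (q : ℚ), Differentiable ℂ g ∧
    (∀ s : ℂ, 3 / 2 < s.re → g s = (cv ((2 * dlc c S : 𝓞 K) : K)).LSeries s) ∧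
    g 1 * (√|(discr K : ℝ)| : ℝ) / (period (cv ((2 * dlc c S : 𝓞 K) : K)) : ℝ) =
      ((q : ℝ) * (((∏ᶠ v : HeightOneSpectrum (𝓞 K),
        tam (cv ((2 * dlc c S : 𝓞 K) : K)) v : ℕ) : ℝ) / 16) : ℝ) ∧
    ¬ 2 ∣ q.den ∧ (¬ (2 : ℤ) ∣ q.num ↔ (qE.NE c S).det ≠ 0) := by
  classical
  obtain ⟨t, ht, hT⟩ := MP_1a91b9_ntE.C.finprod_tam_e c S
  obtain ⟨g, hgd, hgs, hg⟩ := lser_maine c S
  obtain ⟨ρ, hρ, hρA, hκ⟩ := norm_kaE c
  have hg' : g 1 * (if s3 ∣ 2 * dlc c S then 4 / 3 else 1) =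
      LSe c S 1 * (starRingEnd ℂ) (LSe c S 1) := by
    rw [form_ife]
    exact hg
  obtain ⟨q, h1, h2, h3⟩ := formula_even (δ := 2 * dlc c S) (d := dlc c S) (r := S.card)
    (b := (qE.NE c S).det ≠ 0) (dlE_squarefree c S) rfl (dlc_two c S) ep_cube hρ hρA hκ hg'
    (fun h A hA => by rw [val_LSe_eq c S hA]; exact (nuE_res hA c S).unit hA h)
    (fun h A hA => by rw [val_LSe_eq c S hA]; exact Rs_lt hA (nuE_res hA c S) h) ht
    (T := ∏ᶠ v : HeightOneSpectrum (𝓞 K), tam (cv ((2 * dlc c S : 𝓞 K) : K)) v)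
    (by rw [form_ifeN]; exact hT) (crat_e c S)
  exact ⟨g, q, hgd, hgs, h3, h1, h2⟩

end

end Pool.Agent.Lib.MP_1a91b9_ntS
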