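import Pool.Agent.Lib.MP_1a91b9_ntE.Q1E
import Pool.Agent.Lib.MP_1a91b9_ntE.D.UpE
import Pool.Agent.Lib.MP_1a91b9_ntH2.D.Up

/-!
# MP_1a91b9_nt, all squarefree twists: the exact density
-/

set_option autoImplicit false

namespace Pool.Agent.Lib.MP_1a91b9_ntS

open NumberField IsDedekindDomain Finset Filter Topology Pool.Agent.Lib.MP_1a91b9_ntT
  Pool.Agent.Lib.MP_1a91b9_ntH Pool.Agent.Lib.MP_1a91b9_ntH2 Pool.Agent.Lib.MP_1a91b9_ntE

noncomputable section

/-- a limit from two lower bounds -/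
theorem lim_of_bounds {a b n : ℝ → ℕ} (h : ∀ X, a X + b X = n X) {c : ℝ}
    (h1 : ∀ ε : ℝ, 0 < ε → ∀ᶠ X : ℝ in atTop, c - ε ≤ (a X : ℝ) / (n X : ℝ))
    (h2 : ∀ ε : ℝ, 0 < ε → ∀ᶠ X : ℝ in atTop, (1 - c) - ε ≤ (b X : ℝ) / (n X : ℝ)) :
    Tendsto (fun X => (a X : ℝ) / (n X : ℝ)) atTop (𝓝 c) := by
  have key : ∀ X, (a X : ℝ) / (n X : ℝ) + (b X : ℝ) / (n X : ℝ) ≤ 1 := by
    intro X
    rw [← add_div]
    have h3 : (a X : ℝ) + (b X : ℝ) = (n X : ℝ) := by exact_mod_cast h X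
    rw [h3]
    exact div_self_le_one _
  refine tendsto_order.2 ⟨fun c' hc => ?_, fun c' hc => ?_⟩
  · filter_upwards [h1 ((c - c') / 2) (by linarith)] with X hX
    linarith
  · filter_upwards [h2 ((c' - c) / 2) (by linarith)] with X hX
    linarith [key X]

/-- the number of elements with and without a property -/
theorem card_add_card {P : 𝓞 K → Prop} {X : ℝ} (Q : 𝓞 K → Prop)
    (hP : ∀ x, P x → |Algebra.norm ℤ x| ≤ X) :
    Nat.card {x : 𝓞 K // P x ∧ Q x} + Nat.card {x : 𝓞 K // P x ∧ ¬ Q x} =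
      Nat.card {x : 𝓞 K // P x} := by
  classical
  have hf : {x : 𝓞 K | P x}.Finite := by
    have h1 := DensA.finite_le X
    have h2 : Set.Finite {x : 𝓞 K | (Nz x : ℝ) ≤ X} := Set.finite_coe_iff.1 h1
    exact h2.subset fun x hx => (abs_norm_le x X).1 (hP x hx)
  have e1 : Nat.card {x : 𝓞 K // P x} = {x : 𝓞 K | P x}.ncard := rfl
  have e2 : Nat.card {x : 𝓞 K // P x ∧ Q x} = ({x : 𝓞 K | P x} ∩ {x : 𝓞 K | Q x}).ncard := rfl
  have e3 : Nat.card {x : 𝓞 K // P x ∧ ¬ Q x} = ({x : 𝓞 K | P x} \ {x : 𝓞 K | Q x}).ncard := rfl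
  rw [e1, e2, e3, Set.ncard_inter_add_ncard_sdiff_eq_ncard _ _ hf]

/-- **The exact density.** If the property `Pr` holds for a pair exactly if the determinant is not
zero, then the proportion of the `δ` with `Pr` in the class of `u` modulo `m` tends to the infinite
product. -/
theorem lim_E {m u : 𝓞 K} (hm : m ∣ 4) (hu : ¬ (4 ∣ m ∧ 4 ∣ u)) (Pr : 𝓞 K → Prop)
    (hPr1 : ∀ (j : ℕ) (c : F4) (S : Finset Pq),
      Pr (wO ^ j * dlc c S) ↔ ((tw c qd).M S).det ≠ 0)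
    (hPr2 : ∀ (j : ℕ) (c : F4) (S : Finset Pq),
      Pr (2 * (wO ^ j * dlc c S)) ↔ (qE.NE c S).det ≠ 0) :
    Tendsto (fun X : ℝ =>
      (Nat.card {δ : 𝓞 K // Squarefree δ ∧ m ∣ δ - u ∧ |Algebra.norm ℤ δ| ≤ X ∧ Pr δ} : ℝ) /
        (Nat.card {δ : 𝓞 K // Squarefree δ ∧ m ∣ δ - u ∧ |Algebra.norm ℤ δ| ≤ X} : ℝ)) atTop
      (𝓝 (∏' i : ℕ, (1 + 1 / (2 : ℝ) ^ (2 * i + 1))⁻¹)) := by
  classical
  have hR : ∀ x y : 𝓞 K, (4 : 𝓞 K) ∣ x - y → (m ∣ x - u ↔ m ∣ y - u) := by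
    intro x y hxy
    have h4 := hm.trans hxy
    constructor
    · intro h
      have e : y - u = (x - u) - (x - y) := by ring
      rw [e]
      exact dvd_sub h h4
    · intro h
      have e : x - u = (y - u) + (x - y) := by ring
      rw [e]
      exact dvd_add h h4
  have hne : ∃ x, m ∣ x - u ∧ ¬ (4 : 𝓞 K) ∣ x := by
    by_cases h : (4 : 𝓞 K) ∣ u
    · refine ⟨u + m, ⟨1, by ring⟩, fun h1 => hu ⟨?_, h⟩⟩
      exact (dvd_add_right h).1 h1
    · exact ⟨u, by rw [sub_self]; exact dvd_zero _, h⟩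
  refine lim_of_bounds
    (b := fun X => Nat.card {δ : 𝓞 K // Squarefree δ ∧ m ∣ δ - u ∧ |Algebra.norm ℤ δ| ≤ X ∧
      ¬ Pr δ}) (fun X => ?_)
    (fun ε hε => density_E hm hu Pr (fun j c S h => (hPr1 j c S).2 h)
      (fun j c S h => (hPr2 j c S).2 h) ε hε) (fun ε hε => ?_)
  · have h := card_add_card (P := fun δ : 𝓞 K => Squarefree δ ∧ m ∣ δ - u ∧
      |Algebra.norm ℤ δ| ≤ X) (X := X) Pr (fun x hx => hx.2.2)
    simp only [and_assoc] at h
    exact h
  · rw [cinf_form]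
    refine density_mod4 (fun δ => m ∣ δ - u) hR hne (1 - Da.cinf - ε / 2) (1 - Da.cinf - ε)
      (by linarith) (fun c S => ¬ ((tw c qd).M S).det ≠ 0) (fun c S => ¬ (qE.NE c S).det ≠ 0)
      (fun c d η hη => ?_) (fun c d η hη => ?_) (fun δ => ¬ Pr δ)
      (fun j c S h h1 => h ((hPr1 j c S).1 h1)) (fun j c S h h1 => h ((hPr2 j c S).1 h1))
    · obtain ⟨X₀, h⟩ := Db.density2_upper qd_OK c
        (show Da.cinf < Da.cinf + ε / 2 by linarith) η hη
      refine ⟨X₀, fun X hX => ?_⟩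
      have h1 := h X hX d
      have h2 := card_filter_add_card_filter_not (s := (Sx Pq X).filter fun S => qd.A S = d)
        (fun S => ((tw c qd).M S).det ≠ 0)
      rw [filter_filter, filter_filter] at h2
      have h3 : (((Sx Pq X).filter fun S => qd.A S = d ∧ ((tw c qd).M S).det ≠ 0).card : ℝ) +
          (((Sx Pq X).filter fun S => qd.A S = d ∧ ¬ ((tw c qd).M S).det ≠ 0).card : ℝ) =
          (((Sx Pq X).filter fun S => qd.A S = d).card : ℝ) := by exact_mod_cast h2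
      have h4 : (((Sx Pq X).filter fun S => qd.A S = d ∧ ((tw c qd).M S).det ≠ 0).card : ℝ) ≤
          (Da.cinf + ε / 2) * (((Sx Pq X).filter fun S => qd.A S = d).card : ℝ) + η * X := h1
      linarith
    · obtain ⟨X₀, h⟩ := Dc.densityE_upper qE_OK c
        (show Da.cinf < Da.cinf + ε / 2 by linarith) η hη
      refine ⟨X₀, fun X hX => ?_⟩
      have h1 := h X hX d
      have h2 := card_filter_add_card_filter_not (s := (Sx Pq X).filter fun S => qd.A S = d)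
        (fun S => (qE.NE c S).det ≠ 0)
      rw [filter_filter, filter_filter] at h2
      have h3 : (((Sx Pq X).filter fun S => qd.A S = d ∧ (qE.NE c S).det ≠ 0).card : ℝ) +
          (((Sx Pq X).filter fun S => qd.A S = d ∧ ¬ (qE.NE c S).det ≠ 0).card : ℝ) =
          (((Sx Pq X).filter fun S => qd.A S = d).card : ℝ) := by exact_mod_cast h2
      have h4 : (((Sx Pq X).filter fun S => qd.A S = d ∧ (qE.NE c S).det ≠ 0).card : ℝ) ≤
          (Da.cinf + ε / 2) * (((Sx Pq X).filter fun S => qd.A S = d).card : ℝ) + η * X := h1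
      linarith

end

end Pool.Agent.Lib.MP_1a91b9_ntS
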