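import Pool.Agent.Lib.MP_1a91b9_ntS.Q.Form
import Pool.Agent.Lib.MP_1a91b9_ntS.Q.Lim

/-!
# MP_1a91b9_nt: the conjecture of Birch and Swinnerton-Dyer modulo 2 for every quadratic twist, with the
distribution of the normalised value: assembly
-/

set_option autoImplicit false

namespace Pool.Agent.Lib.MP_1a91b9_ntS

open NumberField IsDedekindDomain Finset Pool.Agent.Lib.MP_1a91b9_ntT Pool.Agent.Lib.MP_1a91b9_ntH
  Pool.Agent.Lib.MP_1a91b9_ntH2 Pool.Agent.Lib.MP_1a91b9_ntE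
open Pool.Agent.Lib.MP_1a91b9_ntH.C (cv)
open Pool.Agent.Lib.MP_1a91b9_ntT3.S9 (ShaP)

noncomputable section

theorem det_iff_o (c : F4) (S : Finset Pq) : ((tw c qd).M S).det ≠ 0 ↔
    Finite (cv ((dlc c S : 𝓞 K) : K)).toAffine.Point ∧
      Nat.card (ShaP 2 (cv ((dlc c S : 𝓞 K) : K))) = 1 := by
  constructor
  · intro h
    exact ⟨MP_1a91b9_ntH2.C.finite_dlc c S h rfl, MP_1a91b9_ntH2.C.sha_dlc c S h rfl⟩
  · rintro ⟨h1, h2⟩ h
    exact C.conv_o c S h rfl h1 h2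

theorem det_iff_e (c : F4) (S : Finset Pq) : (qE.NE c S).det ≠ 0 ↔
    Finite (cv ((2 * dlc c S : 𝓞 K) : K)).toAffine.Point ∧
      Nat.card (ShaP 2 (cv ((2 * dlc c S : 𝓞 K) : K))) = 1 := by
  constructor
  · intro h
    have h1 := MP_1a91b9_ntE.C.pointsE c S h (W := cv ((2 * dlc c S : 𝓞 K) : K)) rfl
    exact ⟨h1.1, h1.2.2⟩
  · rintro ⟨h1, h2⟩ h
    exact C.conv_e c S h rfl h1 h2

/-- **BSD modulo 2**, odd classes. -/
theorem bsd_o (c : F4) (S : Finset Pq) : ∃ q : ℚ, BSDMod 2 (cv ((dlc c S : 𝓞 K) : K)) q := by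
  obtain ⟨g, q, h1, h2, h3, h4, h5⟩ := form_c c S
  have hp := C.card_prim (MP_1a91b9_ntE.C.coe_ne (dlc_ne_zero c S))
    (W := cv ((dlc c S : 𝓞 K) : K)) rfl om_quad C.neg_one_not_sq
  refine ⟨q, ⟨g, h1, h2, ?_⟩, h4, ?_⟩
  · rw [h3, hp]
    norm_num
  · exact h5.trans (det_iff_o c S)

/-- **BSD modulo 2**, even classes. -/
theorem bsd_e (c : F4) (S : Finset Pq) : ∃ q : ℚ, BSDMod 2 (cv ((2 * dlc c S : 𝓞 K) : K)) q := by
  obtain ⟨g, q, h1, h2, h3, h4, h5⟩ := form_e c S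
  have hp := C.card_prim (MP_1a91b9_ntE.C.coe_ne (dlE_squarefree c S).ne_zero)
    (W := cv ((2 * dlc c S : 𝓞 K) : K)) rfl om_quad C.neg_one_not_sq
  refine ⟨q, ⟨g, h1, h2, ?_⟩, h4, ?_⟩
  · rw [h3, hp]
    norm_num
  · exact h5.trans (det_iff_e c S)

theorem main_cube (j : ℕ) (x : 𝓞 K) :
    ((wO ^ j * x : 𝓞 K) : K) ^ 3 = ((x : 𝓞 K) : K) ^ 3 := by
  have h := pow_w_mul_cube j x
  have h1 := congrArg (fun y : 𝓞 K => (y : K)) h
  simpa using h1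

/-- BSD modulo 2 for every squarefree element. -/
theorem bsd_all {δ : 𝓞 K} (hs : Squarefree δ) :
    ∃ q : ℚ, BSDMod 2 (⟨0, 0, 0, 0, (δ : K) ^ 3⟩ : WeierstrassCurve K) q := by
  obtain ⟨⟨b, j, c⟩, x, ⟨h1, h2, h3⟩, rfl⟩ := DensA.exists_ph hs
  obtain ⟨S, rfl⟩ := exists_dlc h1 h2 h3
  cases b
  · have e : DensA.ph (false, j, c) (dlc c S) = wO ^ (j : ℕ) * dlc c S := by
      unfold DensA.ph
      simp
    rw [e, main_cube]
    exact bsd_o c S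
  · have e : DensA.ph (true, j, c) (dlc c S) = wO ^ (j : ℕ) * (2 * dlc c S) := by
      unfold DensA.ph
      simp only [if_true]
      ring
    rw [e, main_cube]
    exact bsd_e c S

theorem exists_val (δ : 𝓞 K) : ∃ q : ℚ, Squarefree δ →
    BSDMod 2 (⟨0, 0, 0, 0, (δ : K) ^ 3⟩ : WeierstrassCurve K) q := by
  by_cases h : Squarefree δ
  · obtain ⟨q, hq⟩ := bsd_all h
    exact ⟨q, fun _ => hq⟩
  · exact ⟨0, fun h1 => absurd h1 h⟩

/-- The normalised value of the L-series. -/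
def qv (δ : 𝓞 K) : ℚ := (exists_val δ).choose

theorem qv_spec {δ : 𝓞 K} (h : Squarefree δ) :
    BSDMod 2 (⟨0, 0, 0, 0, (δ : K) ^ 3⟩ : WeierstrassCurve K) (qv δ) := (exists_val δ).choose_spec h

theorem qv_o (j : ℕ) (c : F4) (S : Finset Pq) :
    ¬ (2 : ℤ) ∣ (qv (wO ^ j * dlc c S)).num ↔ ((tw c qd).M S).det ≠ 0 := by
  have hs : Squarefree (wO ^ j * dlc c S) := pow_w_mul_squarefree j c S
  have h := (qv_spec hs).2.2
  rw [main_cube] at h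
  exact h.trans (det_iff_o c S).symm

theorem qv_e (j : ℕ) (c : F4) (S : Finset Pq) :
    ¬ (2 : ℤ) ∣ (qv (2 * (wO ^ j * dlc c S))).num ↔ (qE.NE c S).det ≠ 0 := by
  have e : (2 : 𝓞 K) * (wO ^ j * dlc c S) = wO ^ j * (2 * dlc c S) := by ring
  have hs : Squarefree (wO ^ j * (2 * dlc c S)) :=
    squarefree_unit_mul (isUnit_wO.pow j) (dlE_squarefree c S)
  rw [e]
  have h := (qv_spec hs).2.2
  rw [main_cube] at h
  exact h.trans (det_iff_e c S).symm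

theorem main_q2T : ∃ q : 𝓞 (CyclotomicField 3 ℚ) → ℚ,
    (∀ δ : 𝓞 (CyclotomicField 3 ℚ), Squarefree δ → ∀ W : WeierstrassCurve (CyclotomicField 3 ℚ),
      W = ⟨0, 0, 0, 0, (δ : CyclotomicField 3 ℚ) ^ 3⟩ → BSDMod 2 W (q δ)) ∧
    ∀ m u : 𝓞 (CyclotomicField 3 ℚ), m ∣ 4 → ¬ (4 ∣ m ∧ 4 ∣ u) →
      Filter.Tendsto (fun X : ℝ =>
        (Nat.card {δ : 𝓞 (CyclotomicField 3 ℚ) // Squarefree δ ∧ m ∣ δ - u ∧
          |Algebra.norm ℤ δ| ≤ X ∧ ¬ 2 ∣ (q δ).num} : ℝ) /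
        (Nat.card {δ : 𝓞 (CyclotomicField 3 ℚ) // Squarefree δ ∧ m ∣ δ - u ∧
          |Algebra.norm ℤ δ| ≤ X} : ℝ)) Filter.atTop
        (nhds (∏' i : ℕ, (1 + 1 / (2 : ℝ) ^ (2 * i + 1))⁻¹)) := by
  refine ⟨qv, fun δ hs W hW => ?_, fun m u hm hu => ?_⟩
  · subst hW
    exact qv_spec hs
  · exact lim_E (m := m) (u := u) hm hu (fun δ => ¬ (2 : ℤ) ∣ (qv δ).num) qv_o qv_e

end

end Pool.Agent.Lib.MP_1a91b9_ntS
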